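import Mathlib
import Pool.Agent.SPK.Core
import Pool.Agent.SPK.All
import Pool.Agent.SPK.C1
import Pool.Agent.SPK.C2
import Pool.Agent.SPK.C3
import Pool.Agent.SPK.C4

/-!
# MP_e219a4_nt: covering sets for `k * 2 ^ n + 1` with `k < 78557`

A covering set for one of the twelve values of `k` of Q1 must contain a prime `p` such that `2` has
order larger than `100000` modulo `p`; for every odd `k < 78557` it must contain a prime with order
larger than `1000`. For `78557` there is a covering set of primes with orders at most `36`.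
-/

set_option autoImplicit false

namespace Pool.Agent.Results.MP_e219a4_nt.NoSmallCovering

open Pool.Agent.SPK

/-- `P` is a covering set for `k`: a finite set of primes such that every number `k * 2 ^ n + 1`,
`n ≥ 1`, is divisible by one of them. -/
def IsCovering (k : ℕ) (P : Finset ℕ) : Prop :=
  (∀ p ∈ P, p.Prime) ∧ ∀ n : ℕ, 1 ≤ n → ∃ p ∈ P, p ∣ k * 2 ^ n + 1

private theorem of_big {B k : ℕ} (h : Big B k) (P : Finset ℕ) (hP : IsCovering k P) :
    ∃ p ∈ P, B < orderOf (2 : ZMod p) := by
  obtain ⟨n, hn, h⟩ := h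
  obtain ⟨p, hp, hd⟩ := hP.2 n hn
  exact ⟨p, hp, h p (hP.1 p hp) hd⟩

private theorem mod36 : ∀ p ∈ ({3, 5, 7, 13, 19, 37, 73} : Finset ℕ), 2 ^ 36 ≡ 1 [MOD p] := by
  decide +kernel

private theorem cover : IsCovering 78557 {3, 5, 7, 13, 19, 37, 73} := by
  refine ⟨?_, fun n _ => ?_⟩
  · intro p hp
    simp only [Finset.mem_insert, Finset.mem_singleton] at hp
    rcases hp with rfl | rfl | rfl | rfl | rfl | rfl | rfl <;> norm_num
  · have key : ∀ r < 36, ∃ p ∈ ({3, 5, 7, 13, 19, 37, 73} : Finset ℕ), p ∣ 78557 * 2 ^ r + 1 := by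
      decide +kernel
    obtain ⟨p, hp, hd⟩ := key (n % 36) (Nat.mod_lt _ (by norm_num))
    refine ⟨p, hp, ?_⟩
    have h2 : 2 ^ n ≡ 2 ^ (n % 36) [MOD p] := by
      have e : 2 ^ n = (2 ^ 36) ^ (n / 36) * 2 ^ (n % 36) := by
        rw [← pow_mul, ← pow_add, Nat.div_add_mod]
      rw [e]
      have h4 := ((mod36 p hp).pow (n / 36)).mul_right (2 ^ (n % 36))
      rwa [one_pow, one_mul] at h4
    have h3 : 78557 * 2 ^ n + 1 ≡ 78557 * 2 ^ (n % 36) + 1 [MOD p] :=
      (h2.mul_left _).add_right _
    exact (h3.dvd_iff dvd_rfl).2 hd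

/-- (1) For each of the twelve values of `k` there is `n ≥ 1` such that `2` has order larger than
`100000` modulo every prime factor of `k * 2 ^ n + 1`; hence every covering set for `k` contains a
prime with such an order. (2) The same for every odd `k < 78557`, with `1000`. (3) For `78557` there
is a covering set of primes modulo which `2` has order at most `36`. -/
theorem result :
    (∀ k ∈ ({4847, 5359, 10223, 19249, 21181, 22699, 24737, 27653, 28433, 33661, 55459,
        67607} : Finset ℕ),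
      (∃ n : ℕ, 1 ≤ n ∧ ∀ p : ℕ, p.Prime → p ∣ k * 2 ^ n + 1 →
        100000 < orderOf (2 : ZMod p)) ∧
      ∀ P : Finset ℕ, IsCovering k P → ∃ p ∈ P, 100000 < orderOf (2 : ZMod p)) ∧
    (∀ k : ℕ, Odd k → k < 78557 →
      (∃ n : ℕ, 1 ≤ n ∧ ∀ p : ℕ, p.Prime → p ∣ k * 2 ^ n + 1 →
        1000 < orderOf (2 : ZMod p)) ∧
      ∀ P : Finset ℕ, IsCovering k P → ∃ p ∈ P, 1000 < orderOf (2 : ZMod p)) ∧
    ∃ P : Finset ℕ, IsCovering 78557 P ∧ ∀ p ∈ P, orderOf (2 : ZMod p) ≤ 36 := by
  refine ⟨?_, fun k h1 h2 => ⟨big_all k h1 h2, of_big (big_all k h1 h2)⟩,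
    {3, 5, 7, 13, 19, 37, 73}, cover, ?_⟩
  · intro k hk
    have hB : Big 100000 k := by
      simp only [Finset.mem_insert, Finset.mem_singleton] at hk
      rcases hk with rfl | rfl | rfl | rfl | rfl | rfl | rfl | rfl | rfl | rfl | rfl | rfl
      · exact big4847
      · exact big5359
      · exact big10223
      · exact big19249
      · exact big21181
      · exact big22699
      · exact big24737
      · exact big27653
      · exact big28433
      · exact big33661
      · exact big55459
      · exact big67607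
    exact ⟨hB, of_big hB⟩
  · intro p hp
    apply orderOf_le_of_pow_eq_one (by norm_num)
    have h1 : ((2 ^ 36 : ℕ) : ZMod p) = ((1 : ℕ) : ZMod p) :=
      (ZMod.natCast_eq_natCast_iff _ _ _).2 (mod36 p hp)
    rw [Nat.cast_pow, Nat.cast_ofNat, Nat.cast_one] at h1
    exact h1

end Pool.Agent.Results.MP_e219a4_nt.NoSmallCovering
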